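import Pool.Agent.Helper2_FKP.Tee

/-!
# FKP: from the recursive form of Pieri's formula to sums over sorted words
-/

set_option autoImplicit false

open Finset

noncomputable section

namespace Pool.Agent.FKP.H2

variable {N : ℕ}

/-- all orders of a set of rows -/
def ordF (C : Finset (Fin N)) : Finset (List (Fin N)) := ⟨C.val.lists, Multiset.lists_nodup_finset C⟩

theorem mem_ordF {C : Finset (Fin N)} {l : List (Fin N)} :
    l ∈ ordF C ↔ l.Nodup ∧ l.toFinset = C := by
  show l ∈ C.val.lists ↔ _
  rw [Multiset.mem_lists_iff]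
  constructor
  · intro h
    have hn : l.Nodup := by
      have := C.nodup
      rw [h] at this
      exact this
    refine ⟨hn, ?_⟩
    refine Finset.val_injective ?_
    rw [List.toFinset_val, hn.dedup, h]
    rfl
  · rintro ⟨hn, rfl⟩
    rw [List.toFinset_val, hn.dedup]
    rfl

theorem wd_map (b : Fin N) (l : List (Fin N)) :
    wd (l.map fun c => (c, b)) = (l.map fun c => X c b).prod := by
  rw [wd, List.map_map]; rfl

theorem R_eq (b : Fin N) (C : Finset (Fin N)) :
    R b C = ∑ l ∈ ordF C, wd (l.map fun c => (c, b)) := by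
  simp only [wd_map]
  rfl

/-- sorted words with the set of rows `B` and columns in `bs` -/
def Cond (bs : List (Fin N)) (B : Finset (Fin N)) (W : List (Fin N × Fin N)) : Prop :=
  (W.map Prod.fst).Nodup ∧ (W.map Prod.fst).toFinset = B ∧ (∀ p ∈ W, p.2 ∈ bs) ∧
    W.Pairwise (fun p q => p.2 ≤ q.2)

theorem cond_len {bs : List (Fin N)} {B : Finset (Fin N)} {W : List (Fin N × Fin N)}
    (h : Cond bs B W) : W.length = B.card := by
  rw [← h.2.1, List.toFinset_card_of_nodup h.1, List.length_map]

open Classical in
/-- the finite set of these words -/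
def LS (bs : List (Fin N)) (B : Finset (Fin N)) : Finset (List (Fin N × Fin N)) :=
  (List.finite_length_eq (Fin N × Fin N) B.card).toFinset.filter (Cond bs B)

theorem mem_LS {bs : List (Fin N)} {B : Finset (Fin N)} {W : List (Fin N × Fin N)} :
    W ∈ LS bs B ↔ Cond bs B W := by
  simp only [LS, Finset.mem_filter, Set.Finite.mem_toFinset, Set.mem_ofPred_eq]
  exact ⟨fun h => h.2, fun h => ⟨cond_len h, h⟩⟩

theorem fst_map (b : Fin N) (l : List (Fin N)) :
    (l.map fun c => (c, b)).map Prod.fst = l := by
  rw [List.map_map]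
  exact List.map_id _

theorem split_eq {b : Fin N} {bs : List (Fin N)} (hb : ∀ c ∈ bs, b < c)
    {W : List (Fin N × Fin N)} (h3 : ∀ p ∈ W, p.2 ∈ b :: bs)
    (h4 : W.Pairwise (fun p q => p.2 ≤ q.2)) :
    (((W.filter fun p => p.2 = b).map Prod.fst).map fun c => (c, b)) ++
      (W.filter fun p => ¬ p.2 = b) = W := by
  have k1 : (((W.filter fun p => p.2 = b).map Prod.fst).map fun c => (c, b)) =
      W.filter fun p => p.2 = b := by
    rw [List.map_map]
    have : ∀ p ∈ (W.filter fun p => p.2 = b), ((fun c => (c, b)) ∘ Prod.fst) p = id p := by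
      intro p hp
      rw [List.mem_filter] at hp
      have hp2 : p.2 = b := by simpa using hp.2
      show (p.1, b) = p
      rw [← hp2]
    rw [List.map_congr_left this, List.map_id]
  rw [k1]
  -- a sorted word starts with the smallest column
  clear k1
  induction W with
  | nil => rfl
  | cons p W ih =>
    rw [List.pairwise_cons] at h4
    have ih' := ih (fun x hx => h3 x (List.mem_cons_of_mem _ hx)) h4.2
    by_cases hp : p.2 = b
    · rw [List.filter_cons_of_pos (by simpa using hp), List.filter_cons_of_neg (by simpa using hp),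
        List.cons_append, ih']
    · have hlt : ∀ x ∈ W, ¬ x.2 = b := by
        intro x hx e
        have h5 := h4.1 x hx
        rcases List.mem_cons.1 (h3 p (List.mem_cons_self ..)) with h | h
        · exact hp h
        · exact absurd (lt_of_lt_of_le (hb _ h) h5) (by rw [e]; exact lt_irrefl _)
      have e1 : (W.filter fun p => p.2 = b) = [] := by
        rw [List.filter_eq_nil_iff]
        intro x hx hh
        exact hlt x hx (by simpa using hh)
      rw [e1, List.nil_append] at ih'
      rw [List.filter_cons_of_neg (by simpa using hp), List.filter_cons_of_pos (by simpa using hp),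
        e1, List.nil_append, ih']

/-- the recursion over the columns -/
theorem LS_cons {b : Fin N} {bs : List (Fin N)} (hb : ∀ c ∈ bs, b < c) (B : Finset (Fin N)) :
    ∑ W ∈ LS (b :: bs) B, wd W =
      ∑ C ∈ B.powerset, R b C * ∑ W ∈ LS bs (B \ C), wd W := by
  classical
  have e1 : ∑ C ∈ B.powerset, R b C * ∑ W ∈ LS bs (B \ C), wd W =
      ∑ x ∈ B.powerset.sigma (fun C => ordF C ×ˢ LS bs (B \ C)),
        wd ((x.2.1.map fun c => (c, b)) ++ x.2.2) := by
    rw [Finset.sum_sigma]
    refine Finset.sum_congr rfl fun C _ => ?_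
    rw [Finset.sum_product, R_eq, Finset.sum_mul_sum]
    refine Finset.sum_congr rfl fun l _ => Finset.sum_congr rfl fun W _ => ?_
    rw [wd_append]
  rw [e1]
  have hbn : b ∉ bs := fun h => lt_irrefl _ (hb b h)
  refine Finset.sum_nbij'
    (fun W => ⟨((W.filter fun p => p.2 = b).map Prod.fst).toFinset,
      ((W.filter fun p => p.2 = b).map Prod.fst, W.filter fun p => ¬ p.2 = b)⟩)
    (fun x => (x.2.1.map fun c => (c, b)) ++ x.2.2) ?_ ?_ ?_ ?_ ?_
  · -- into
    intro W hW
    obtain ⟨h1, h2, h3, h4⟩ := mem_LS.1 hW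
    have hs1 : ((W.filter fun p => p.2 = b).map Prod.fst).Nodup :=
      h1.sublist (List.filter_sublist.map _)
    have hs2 : ((W.filter fun p => ¬ p.2 = b).map Prod.fst).Nodup :=
      h1.sublist (List.filter_sublist.map _)
    rw [Finset.mem_sigma, Finset.mem_product, Finset.mem_powerset, mem_ordF, mem_LS]
    refine ⟨?_, ⟨hs1, rfl⟩, hs2, ?_, ?_, h4.sublist List.filter_sublist⟩
    · intro x hx
      rw [← h2, List.mem_toFinset]
      rw [List.mem_toFinset] at hx
      exact (List.filter_sublist.map Prod.fst).subset hx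
    · ext a
      simp only [List.mem_toFinset, Finset.mem_sdiff, ← h2]
      constructor
      · intro ha
        refine ⟨(List.filter_sublist.map Prod.fst).subset ha, ?_⟩
        intro hb'
        obtain ⟨p, hp, rfl⟩ := List.mem_map.1 ha
        obtain ⟨p', hp', e⟩ := List.mem_map.1 hb'
        rw [List.mem_filter] at hp hp'
        have := List.inj_on_of_nodup_map h1 hp'.1 hp.1 e
        rw [this] at hp'
        have k1 := hp.2
        have k2 := hp'.2
        simp only [decide_eq_true_eq] at k1 k2
        exact k1 k2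
      · rintro ⟨ha, hb'⟩
        obtain ⟨p, hp, rfl⟩ := List.mem_map.1 ha
        refine List.mem_map_of_mem ?_
        rw [List.mem_filter]
        refine ⟨hp, ?_⟩
        simp only [decide_eq_true_eq]
        intro hpb
        exact hb' (List.mem_map_of_mem (List.mem_filter.2 ⟨hp, by simpa using hpb⟩))
    · intro p hp
      rw [List.mem_filter] at hp
      have k1 := hp.2
      simp only [decide_eq_true_eq] at k1
      rcases List.mem_cons.1 (h3 p hp.1) with h | h
      · exact absurd h k1
      · exact h
  · -- back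
    rintro ⟨C, l, W⟩ hx
    rw [Finset.mem_sigma, Finset.mem_product, Finset.mem_powerset, mem_ordF, mem_LS] at hx
    obtain ⟨hC, ⟨hl, hlC⟩, h1, h2, h3, h4⟩ := hx
    rw [mem_LS]
    dsimp only at hC hl hlC h1 h2 h3 h4 ⊢
    refine ⟨?_, ?_, ?_, ?_⟩
    · rw [List.map_append, fst_map, List.nodup_append]
      refine ⟨hl, h1, ?_⟩
      intro a ha a' ha' e
      subst e
      have k1 : a ∈ C := by rw [← hlC, List.mem_toFinset]; exact ha
      have k2 : a ∈ B \ C := by rw [← h2, List.mem_toFinset]; exact ha'
      exact (Finset.mem_sdiff.1 k2).2 k1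
    · rw [List.map_append, fst_map, List.toFinset_append, hlC, h2, Finset.union_sdiff_of_subset hC]
    · intro p hp
      rcases List.mem_append.1 hp with h | h
      · obtain ⟨c, -, rfl⟩ := List.mem_map.1 h
        exact List.mem_cons_self ..
      · exact List.mem_cons_of_mem _ (h3 p h)
    · rw [List.pairwise_append]
      refine ⟨?_, h4, ?_⟩
      · rw [List.pairwise_map]
        exact List.pairwise_of_forall fun _ _ => le_rfl
      · intro p hp q hq
        obtain ⟨c, -, rfl⟩ := List.mem_map.1 hp
        exact (hb _ (h3 q hq)).le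
  · -- left inverse
    intro W hW
    obtain ⟨h1, h2, h3, h4⟩ := mem_LS.1 hW
    exact split_eq hb h3 h4
  · -- right inverse
    rintro ⟨C, l, W⟩ hx
    rw [Finset.mem_sigma, Finset.mem_product, Finset.mem_powerset, mem_ordF, mem_LS] at hx
    obtain ⟨hC, ⟨hl, hlC⟩, h1, h2, h3, h4⟩ := hx
    dsimp only at hC hl hlC h1 h2 h3 h4 ⊢
    have e1 : ((l.map fun c => (c, b)) ++ W).filter (fun p => p.2 = b) =
        l.map fun c => (c, b) := by
      rw [List.filter_append]
      have a1 : ((l.map fun c => (c, b)).filter fun p => p.2 = b) = l.map fun c => (c, b) := by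
        rw [List.filter_eq_self]
        intro p hp
        obtain ⟨c, -, rfl⟩ := List.mem_map.1 hp
        simp
      have a2 : (W.filter fun p => p.2 = b) = [] := by
        rw [List.filter_eq_nil_iff]
        intro x hx hh
        have : x.2 = b := by simpa using hh
        exact hbn (this ▸ h3 x hx)
      rw [a1, a2, List.append_nil]
    have e2 : ((l.map fun c => (c, b)) ++ W).filter (fun p => ¬ p.2 = b) = W := by
      rw [List.filter_append]
      have a1 : ((l.map fun c => (c, b)).filter fun p => ¬ p.2 = b) = [] := by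
        rw [List.filter_eq_nil_iff]
        intro p hp
        obtain ⟨c, -, rfl⟩ := List.mem_map.1 hp
        simp
      have a2 : (W.filter fun p => ¬ p.2 = b) = W := by
        rw [List.filter_eq_self]
        intro x hx
        have : x.2 ≠ b := fun h => hbn (h ▸ h3 x hx)
        simpa using this
      rw [a1, a2, List.nil_append]
    rw [e1, e2, fst_map, hlC]
  · intro W hW
    obtain ⟨h1, h2, h3, h4⟩ := mem_LS.1 hW
    exact congrArg wd (split_eq hb h3 h4).symm

theorem LS_nil (B : Finset (Fin N)) :
    ∑ W ∈ LS [] B, wd W = if B = ∅ then (1 : A N) else 0 := by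
  by_cases h : B = ∅
  · subst h
    rw [if_pos rfl]
    have : LS [] (∅ : Finset (Fin N)) = {[]} := by
      ext W
      rw [mem_LS, Finset.mem_singleton]
      constructor
      · intro h
        exact List.eq_nil_of_length_eq_zero (cond_len h)
      · rintro rfl
        exact ⟨by simp, by simp, by simp, by simp⟩
    rw [this, Finset.sum_singleton, wd_nil]
  · rw [if_neg h]
    refine Finset.sum_eq_zero fun W hW => ?_
    exfalso
    obtain ⟨h1, h2, h3, h4⟩ := mem_LS.1 hW
    rcases W with _ | ⟨p, W⟩
    · exact h (by rw [← h2]; rfl)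
    · exact absurd (h3 p (List.mem_cons_self ..)) (by simp)

/-- every function with the recursion of Pieri's formula is the sum of the sorted words -/
theorem V_eq (V : List (Fin N) → Finset (Fin N) → A N)
    (h0 : ∀ B, V [] B = if B = ∅ then 1 else 0)
    (h1 : ∀ b bs B, V (b :: bs) B = ∑ C ∈ B.powerset, R b C * V bs (B \ C))
    {bs : List (Fin N)} (hp : bs.Pairwise (· < ·)) (B : Finset (Fin N)) :
    V bs B = ∑ W ∈ LS bs B, wd W := by
  induction bs generalizing B with
  | nil => rw [h0, LS_nil]
  | cons b bs ih =>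
    rw [List.pairwise_cons] at hp
    rw [h1, LS_cons hp.1]
    exact Finset.sum_congr rfl fun C _ => by rw [ih hp.2]

/-- the sum over the sets of `k` rows -/
theorem LL_eq {j k : ℕ} {bs : List (Fin N)} (hbs : ∀ b : Fin N, b ∈ bs ↔ j ≤ b.val) :
    ∑ B ∈ powersetCard k (univ.filter fun i : Fin N => i.val < j), ∑ W ∈ LS bs B, wd W =
      ∑ W ∈ LL N j k, wd W := by
  classical
  rw [← Finset.sum_fiberwise_of_maps_to (s := LL N j k)
    (t := powersetCard k (univ.filter fun i : Fin N => i.val < j))
    (g := fun W => (W.map Prod.fst).toFinset)]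
  · refine Finset.sum_congr rfl fun B hB => Finset.sum_congr ?_ fun _ _ => rfl
    rw [Finset.mem_powersetCard] at hB
    ext W
    rw [mem_LS, Finset.mem_filter, mem_LL]
    constructor
    · intro h
      refine ⟨⟨(cond_len h).trans hB.2, fun p hp => ⟨?_, (hbs _).1 (h.2.2.1 p hp)⟩, h.1,
        h.2.2.2⟩, h.2.1⟩
      have : p.1 ∈ B := by
        rw [← h.2.1, List.mem_toFinset]; exact List.mem_map_of_mem hp
      exact (Finset.mem_filter.1 (hB.1 this)).2
    · rintro ⟨⟨a1, a2, a3, a4⟩, a5⟩
      exact ⟨a3, a5, fun p hp => (hbs _).2 (a2 p hp).2, a4⟩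
  · intro W hW
    obtain ⟨a1, a2, a3, a4⟩ := mem_LL.1 hW
    rw [Finset.mem_powersetCard]
    constructor
    · intro x hx
      rw [List.mem_toFinset] at hx
      obtain ⟨p, hp, rfl⟩ := List.mem_map.1 hx
      exact Finset.mem_filter.2 ⟨Finset.mem_univ _, (a2 p hp).1⟩
    · rw [List.toFinset_card_of_nodup a3, List.length_map, a1]

/-- Pieri's formula in the recursive form gives `PixStmt` -/
theorem pix_of (V : ∀ N : ℕ, List (Fin N) → Finset (Fin N) → A N)
    (h0 : ∀ N B, V N [] B = if B = ∅ then 1 else 0)
    (h1 : ∀ N b bs B, V N (b :: bs) B = ∑ C ∈ B.powerset, R b C * V N bs (B \ C))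
    (cols : ∀ N : ℕ, ℕ → List (Fin N)) (hc : ∀ N j, (cols N j).Pairwise (· < ·))
    (hm : ∀ N j (b : Fin N), b ∈ cols N j ↔ j ≤ b.val)
    (h : ∀ N j k, j ≤ N → ev N (ek N j k) =
      ∑ B ∈ powersetCard k (univ.filter fun i : Fin N => i.val < j), V N (cols N j) B) :
    PixStmt := by
  intro N j k hj
  rw [h N j k hj, ← LL_eq (hm N j)]
  exact Finset.sum_congr rfl fun B _ => V_eq (V N) (h0 N) (h1 N) (hc N j) B

end Pool.Agent.FKP.H2
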