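import Pool.Agent.FKP.Stmts

/-!
# FKP, module TEE: `e_p(X_M) e_q(X_(M-r)) - e_(p+q)(X_M)` is a sum of words

The exact Pieri formula is a hypothesis (`PixStmt`).
-/

set_option autoImplicit false

open Finset

noncomputable section

namespace Pool.Agent.FKP.H2

variable {N : ℕ}

/-- sorted words in outside letters with different rows -/
def Good (j : ℕ) (l : List (Fin N × Fin N)) : Prop :=
  (∀ p ∈ l, IsOut j p) ∧ (l.map Prod.fst).Nodup ∧ l.Pairwise (fun p q => p.2 ≤ q.2)

open Classical in
/-- the finite set of the sorted words of length `k` in outside letters with different rows -/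
def LL (N j k : ℕ) : Finset (List (Fin N × Fin N)) :=
  (List.finite_length_eq (Fin N × Fin N) k).toFinset.filter (Good j)

theorem mem_LL {j k : ℕ} {l : List (Fin N × Fin N)} :
    l ∈ LL N j k ↔ l.length = k ∧ Good j l := by
  simp [LL]

/-- the exact Pieri formula for `e_k` of the first `j` Dunkl elements -/
def PixStmt : Prop := ∀ (N j k : ℕ), j ≤ N → ev N (ek N j k) = ∑ l ∈ LL N j k, wd l

/-! ### words -/

theorem wd_nil : wd ([] : List (Fin N × Fin N)) = 1 := rfl

theorem wd_cons (p : Fin N × Fin N) (l : List (Fin N × Fin N)) :
    wd (p :: l) = X p.1 p.2 * wd l := by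
  simp [wd]

theorem wd_append (l m : List (Fin N × Fin N)) : wd (l ++ m) = wd l * wd m := by
  simp [wd]

theorem wd_mem {l : List (Fin N × Fin N)} (h : ∀ p ∈ l, p.1 < p.2) : wd l ∈ P N := by
  induction l with
  | nil => rw [wd_nil]; exact one_mem _
  | cons p l ih =>
    rw [wd_cons]
    exact mul_mem (X_mem (h p (List.mem_cons_self ..)))
      (ih fun x hx => h x (List.mem_cons_of_mem _ hx))

/-- a letter commutes with a word which has no index in common with it -/
theorem comm_wd (a b : Fin N) {l : List (Fin N × Fin N)}
    (h : ∀ p ∈ l, a ≠ p.1 ∧ a ≠ p.2 ∧ b ≠ p.1 ∧ b ≠ p.2) : X a b * wd l = wd l * X a b := by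
  induction l with
  | nil => rw [wd_nil, mul_one, one_mul]
  | cons p l ih =>
    obtain ⟨h1, h2, h3, h4⟩ := h p (List.mem_cons_self ..)
    rw [wd_cons, ← mul_assoc, X_comm h1 h2 h3 h4, mul_assoc,
      ih fun x hx => h x (List.mem_cons_of_mem _ hx), mul_assoc]

/-! ### sorting by columns -/

/-- blocks of the columns `cs` -/
def blk (cs : List (Fin N)) (V : List (Fin N × Fin N)) : List (Fin N × Fin N) :=
  cs.flatMap fun c => V.filter fun p => p.2 = c

/-- stable sorting by columns -/
def srt (V : List (Fin N × Fin N)) : List (Fin N × Fin N) := blk (List.finRange N) V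

theorem blk_cons (c : Fin N) (cs : List (Fin N)) (V : List (Fin N × Fin N)) :
    blk (c :: cs) V = (V.filter fun p => p.2 = c) ++ blk cs V := by
  simp [blk]

theorem mem_blk {cs : List (Fin N)} {V : List (Fin N × Fin N)} {p : Fin N × Fin N} :
    p ∈ blk cs V ↔ p ∈ V ∧ p.2 ∈ cs := by
  simp only [blk, List.mem_flatMap, List.mem_filter, decide_eq_true_eq]
  constructor
  · rintro ⟨c, hc, hp, rfl⟩; exact ⟨hp, hc⟩
  · rintro ⟨hp, hc⟩; exact ⟨_, hc, hp, rfl⟩

theorem mem_srt {V : List (Fin N × Fin N)} {p : Fin N × Fin N} : p ∈ srt V ↔ p ∈ V := by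
  rw [srt, mem_blk]; simp

/-- adding a letter in front -/
theorem blk_insert (v : Fin N × Fin N) (V : List (Fin N × Fin N)) {cs : List (Fin N)}
    (hn : cs.Nodup) (hv : v.2 ∈ cs) :
    ∃ l1 l2, blk cs (v :: V) = l1 ++ v :: l2 ∧ blk cs V = l1 ++ l2 ∧
      ∀ x ∈ l1, x ∈ V ∧ x.2 ≠ v.2 := by
  induction cs with
  | nil => simp at hv
  | cons c cs ih =>
    rw [List.nodup_cons] at hn
    by_cases hc : v.2 = c
    · refine ⟨[], (V.filter fun p => p.2 = c) ++ blk cs V, ?_, ?_, by simp⟩
      · rw [blk_cons, List.filter_cons_of_pos (by simpa using hc)]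
        have : blk cs (v :: V) = blk cs V := by
          rw [blk, blk]
          refine List.flatMap_congr fun c' hc' => ?_
          rw [List.filter_cons_of_neg]
          intro hh
          have hh' : v.2 = c' := by simpa using hh
          exact hn.1 (hc ▸ hh' ▸ hc')
        rw [this]; rfl
      · rw [blk_cons]; rfl
    · have hv' : v.2 ∈ cs := by
        rcases List.mem_cons.1 hv with h | h
        · exact absurd h hc
        · exact h
      obtain ⟨l1, l2, e1, e2, e3⟩ := ih hn.2 hv'
      refine ⟨(V.filter fun p => p.2 = c) ++ l1, l2, ?_, ?_, ?_⟩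
      · rw [blk_cons, List.filter_cons_of_neg (by simpa using hc), e1, List.append_assoc]
      · rw [blk_cons, e2, List.append_assoc]
      · intro x hx
        rcases List.mem_append.1 hx with h | h
        · rw [List.mem_filter] at h
          have h2 : x.2 = c := by simpa using h.2
          exact ⟨h.1, fun e => hc (by rw [← e, h2])⟩
        · exact e3 x h

theorem blk_perm {cs : List (Fin N)} (hn : cs.Nodup) (V : List (Fin N × Fin N))
    (hV : ∀ p ∈ V, p.2 ∈ cs) : (blk cs V).Perm V := by
  induction V with
  | nil =>
    have : blk cs ([] : List (Fin N × Fin N)) = [] := by simp [blk]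
    rw [this]
  | cons v V ih =>
    obtain ⟨l1, l2, e1, e2, -⟩ := blk_insert v V hn (hV v (List.mem_cons_self ..))
    have h := ih fun x hx => hV x (List.mem_cons_of_mem _ hx)
    rw [e2] at h
    rw [e1]
    exact List.perm_middle.trans (h.cons v)

theorem srt_perm (V : List (Fin N × Fin N)) : (srt V).Perm V :=
  blk_perm (List.nodup_finRange N) V fun _ _ => List.mem_finRange _

/-- the blocks of the sorted list -/
theorem filter_blk {cs : List (Fin N)} (hn : cs.Nodup) (V : List (Fin N × Fin N)) {c : Fin N}
    (hc : c ∈ cs) : ((blk cs V).filter fun p => p.2 = c) = V.filter fun p => p.2 = c := by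
  induction cs with
  | nil => simp at hc
  | cons c' cs ih =>
    rw [List.nodup_cons] at hn
    rw [blk_cons, List.filter_append, List.filter_filter]
    by_cases h : c = c'
    · subst h
      have h0 : ((blk cs V).filter fun p => p.2 = c) = [] := by
        rw [List.filter_eq_nil_iff]
        intro p hp hh
        have hh' : p.2 = c := by simpa using hh
        exact hn.1 (hh' ▸ (mem_blk.1 hp).2)
      rw [h0, List.append_nil]
      refine List.filter_congr fun p _ => ?_
      simp
    · have hc' : c ∈ cs := by
        rcases List.mem_cons.1 hc with h' | h'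
        · exact absurd h' h
        · exact h'
      rw [ih hn.2 hc']
      have h0 : (V.filter fun p => decide (p.2 = c) && decide (p.2 = c')) = [] := by
        rw [List.filter_eq_nil_iff]
        intro p _ hh
        rw [Bool.and_eq_true, decide_eq_true_eq, decide_eq_true_eq] at hh
        exact h (hh.1.symm.trans hh.2)
      rw [h0, List.nil_append]

theorem filter_srt (V : List (Fin N × Fin N)) (c : Fin N) :
    ((srt V).filter fun p => p.2 = c) = V.filter fun p => p.2 = c :=
  filter_blk (List.nodup_finRange N) V (List.mem_finRange _)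

theorem srt_pairwise (V : List (Fin N × Fin N)) : (srt V).Pairwise (fun p q => p.2 ≤ q.2) := by
  rw [srt, blk, List.pairwise_flatMap]
  constructor
  · intro c _
    refine List.pairwise_of_forall_mem_list ?_
    intro x hx y hy
    rw [List.mem_filter] at hx hy
    have h1 : x.2 = c := by simpa using hx.2
    have h2 : y.2 = c := by simpa using hy.2
    rw [h1, h2]
  · refine (List.pairwise_lt_finRange N).imp ?_
    intro a b hab x hx y hy
    rw [List.mem_filter] at hx hy
    have h1 : x.2 = a := by simpa using hx.2
    have h2 : y.2 = b := by simpa using hy.2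
    rw [h1, h2]; exact hab.le

/-- a sorted list is the list of its blocks -/
theorem srt_of_pairwise {V : List (Fin N × Fin N)} (h : V.Pairwise (fun p q => p.2 ≤ q.2)) :
    srt V = V := by
  induction V with
  | nil => simp [srt, blk]
  | cons v V ih =>
    rw [List.pairwise_cons] at h
    obtain ⟨l1, l2, e1, e2, e3⟩ := blk_insert v V (List.nodup_finRange N) (List.mem_finRange v.2)
    have hs := srt_pairwise (v :: V)
    rw [srt, e1] at hs
    have h1 : l1 = [] := by
      rcases l1 with _ | ⟨x, l1⟩
      · rfl
      · exfalso
        have hx := e3 x (List.mem_cons_self ..)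
        have k1 := h.1 x hx.1
        have k2 : x.2 ≤ v.2 := by
          rw [List.cons_append, List.pairwise_cons] at hs
          exact hs.1 v (by simp)
        exact hx.2 (le_antisymm k2 k1)
    subst h1
    rw [srt, e1, List.nil_append]
    rw [List.nil_append] at e2
    rw [← e2]
    exact congrArg _ (ih h.2)

/-- sorting does not change the word -/
theorem wd_srt {V : List (Fin N × Fin N)} (hn : (V.map Prod.fst).Nodup)
    (hd : ∀ p ∈ V, ∀ q ∈ V, p.1 ≠ q.2) : wd (srt V) = wd V := by
  induction V with
  | nil =>
    have : srt ([] : List (Fin N × Fin N)) = [] := by simp [srt, blk]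
    rw [this]
  | cons v V ih =>
    obtain ⟨l1, l2, e1, e2, e3⟩ := blk_insert v V (List.nodup_finRange N) (List.mem_finRange v.2)
    rw [List.map_cons, List.nodup_cons] at hn
    have hi := ih hn.2 fun p hp q hq => hd p (List.mem_cons_of_mem _ hp) q (List.mem_cons_of_mem _ hq)
    rw [srt, e2, wd_append] at hi
    rw [srt, e1, wd_append, wd_cons, wd_cons, ← mul_assoc, ← comm_wd v.1 v.2, mul_assoc, hi]
    intro p hp
    obtain ⟨h1, h2⟩ := e3 p hp
    refine ⟨fun e => hn.1 ?_, ?_, ?_, fun e => h2 e.symm⟩
    · rw [e]; exact List.mem_map_of_mem h1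
    · exact hd v (List.mem_cons_self ..) p (List.mem_cons_of_mem _ h1)
    · exact (hd p (List.mem_cons_of_mem _ h1) v (List.mem_cons_self ..)).symm

/-! ### splitting -/

/-- the number of the letters with a row `< s` -/
def cnt (s : ℕ) (W : List (Fin N × Fin N)) : ℕ := W.countP fun p => decide (p.1.val < s)

/-- the new column of a moved letter of the column `b` -/
def dcol (U : List (Fin N × Fin N)) (b : Fin N) : Fin N :=
  match U with
  | [] => b
  | (c, b') :: _ => if b' = b then c else b

/-- the last `q` letters with a row `< s` are moved to the second list -/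
def spl (s q : ℕ) : List (Fin N × Fin N) → List (Fin N × Fin N) × List (Fin N × Fin N)
  | [] => ([], [])
  | p :: W =>
    if p.1.val < s ∧ cnt s W < q then
      ((spl s q W).1, (p.1, dcol (spl s q W).1 p.2) :: (spl s q W).2)
    else (p :: (spl s q W).1, (spl s q W).2)

variable {s q : ℕ}

theorem spl_pos {p : Fin N × Fin N} {W : List (Fin N × Fin N)} (h : p.1.val < s ∧ cnt s W < q) :
    spl s q (p :: W) = ((spl s q W).1, (p.1, dcol (spl s q W).1 p.2) :: (spl s q W).2) := by
  rw [spl, if_pos h]

theorem spl_neg {p : Fin N × Fin N} {W : List (Fin N × Fin N)} (h : ¬(p.1.val < s ∧ cnt s W < q)) :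
    spl s q (p :: W) = (p :: (spl s q W).1, (spl s q W).2) := by
  rw [spl, if_neg h]

theorem cnt_cons_pos {p : Fin N × Fin N} {W : List (Fin N × Fin N)} (h : p.1.val < s) :
    cnt s (p :: W) = cnt s W + 1 := by
  rw [cnt, cnt, List.countP_cons_of_pos (by simpa using h)]

theorem cnt_cons_neg {p : Fin N × Fin N} {W : List (Fin N × Fin N)} (h : ¬ p.1.val < s) :
    cnt s (p :: W) = cnt s W := by
  rw [cnt, cnt, List.countP_cons_of_neg (by simpa using h)]

theorem spl_sub (W : List (Fin N × Fin N)) : (spl s q W).1.Sublist W := by
  induction W with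
  | nil => simp [spl]
  | cons p W ih =>
    by_cases h : p.1.val < s ∧ cnt s W < q
    · rw [spl_pos h]; exact ih.cons _
    · rw [spl_neg h]; exact ih.cons_cons _

theorem spl_rows (W : List (Fin N × Fin N)) :
    ((spl s q W).2.map Prod.fst).Sublist (W.map Prod.fst) := by
  induction W with
  | nil => simp [spl]
  | cons p W ih =>
    by_cases h : p.1.val < s ∧ cnt s W < q
    · rw [spl_pos h, List.map_cons, List.map_cons]; exact ih.cons_cons _
    · rw [spl_neg h, List.map_cons]; exact ih.cons _

theorem spl_small (W : List (Fin N × Fin N)) : ∀ v ∈ (spl s q W).2, v.1.val < s := by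
  induction W with
  | nil => simp [spl]
  | cons p W ih =>
    by_cases h : p.1.val < s ∧ cnt s W < q
    · rw [spl_pos h]
      intro v hv
      rcases List.mem_cons.1 hv with rfl | hv
      · exact h.1
      · exact ih v hv
    · rw [spl_neg h]; exact ih

theorem spl_len (W : List (Fin N × Fin N)) :
    (spl s q W).1.length + (spl s q W).2.length = W.length ∧
      (spl s q W).2.length = min q (cnt s W) := by
  induction W with
  | nil => simp [spl, cnt]
  | cons p W ih =>
    by_cases h : p.1.val < s ∧ cnt s W < q
    · rw [spl_pos h, cnt_cons_pos h.1]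
      simp only [List.length_cons]
      omega
    · rw [spl_neg h]
      by_cases hp : p.1.val < s
      · rw [cnt_cons_pos hp]
        simp only [List.length_cons]
        have : ¬ cnt s W < q := fun hh => h ⟨hp, hh⟩
        omega
      · rw [cnt_cons_neg hp]
        simp only [List.length_cons]
        omega

/-- as long as all letters with a row `< s` are moved the first list has only rows `≥ s` -/
theorem spl_big {W : List (Fin N × Fin N)} (h : cnt s W ≤ q) :
    ∀ u ∈ (spl s q W).1, s ≤ u.1.val := by
  induction W with
  | nil => simp [spl]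
  | cons p W ih =>
    by_cases hp : p.1.val < s
    · rw [cnt_cons_pos hp] at h
      rw [spl_pos ⟨hp, by omega⟩]
      exact ih (by omega)
    · rw [cnt_cons_neg hp] at h
      rw [spl_neg (fun hh => hp hh.1)]
      intro u hu
      rcases List.mem_cons.1 hu with rfl | hu
      · exact not_lt.1 hp
      · exact ih h u hu

theorem dcol_cases (U : List (Fin N × Fin N)) (b : Fin N) :
    (dcol U b = b ∧ ∀ u U', U = u :: U' → u.2 ≠ b) ∨ ∃ c U', U = (c, b) :: U' ∧ dcol U b = c := by
  rcases U with _ | ⟨⟨c, b'⟩, U⟩
  · left; exact ⟨rfl, by simp⟩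
  · by_cases h : b' = b
    · subst h
      right; exact ⟨c, U, rfl, by simp [dcol]⟩
    · left
      refine ⟨by simp [dcol, h], ?_⟩
      intro u U' e
      rw [List.cons.injEq] at e
      rw [← e.1]; exact h

/-- the columns of the second list -/
theorem spl_col {M : ℕ} {W : List (Fin N × Fin N)} (hW : ∀ p ∈ W, IsOut M p) :
    ∀ v ∈ (spl s q W).2, M ≤ v.2.val ∨ (v.2 ∈ (spl s q W).1.map Prod.fst ∧ s ≤ v.2.val) := by
  induction W with
  | nil => simp [spl]
  | cons p W ih =>
    have ih' := ih fun x hx => hW x (List.mem_cons_of_mem _ hx)
    by_cases h : p.1.val < s ∧ cnt s W < q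
    · rw [spl_pos h]
      intro v hv
      rcases List.mem_cons.1 hv with rfl | hv
      · rcases dcol_cases (spl s q W).1 p.2 with ⟨e, -⟩ | ⟨c, U', e1, e2⟩
        · left
          show M ≤ (dcol (spl s q W).1 p.2).val
          rw [e]
          exact (hW p (List.mem_cons_self ..)).2
        · right
          show dcol (spl s q W).1 p.2 ∈ _ ∧ s ≤ (dcol (spl s q W).1 p.2).val
          have hc : (c, p.2) ∈ (spl s q W).1 := by rw [e1]; exact List.mem_cons_self ..
          rw [e2]
          exact ⟨List.mem_map_of_mem (f := Prod.fst) hc, spl_big h.2.le _ hc⟩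
      · exact ih' v hv
    · rw [spl_neg h]
      intro v hv
      rcases ih' v hv with h1 | ⟨h1, h2⟩
      · exact Or.inl h1
      · exact Or.inr ⟨by rw [List.map_cons]; exact List.mem_cons_of_mem _ h1, h2⟩

/-! ### the inequality -/

theorem spl_le {M : ℕ} (hsM : s ≤ M) {W : List (Fin N × Fin N)} (hW : ∀ p ∈ W, IsOut M p)
    (hn : (W.map Prod.fst).Nodup) (hp : W.Pairwise (fun p q => p.2 ≤ q.2)) :
    wd (spl s q W).1 * wd (spl s q W).2 - wd W ∈ P N := by
  induction W with
  | nil =>
    have : wd (spl s q ([] : List (Fin N × Fin N))).1 * wd (spl s q []).2 -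
        wd ([] : List (Fin N × Fin N)) = 0 := by simp [spl, wd_nil]
    rw [this]; exact zero_mem _
  | cons p W ih =>
    obtain ⟨a, b⟩ := p
    have hW' : ∀ x ∈ W, IsOut M x := fun x hx => hW x (List.mem_cons_of_mem _ hx)
    rw [List.map_cons, List.nodup_cons] at hn
    rw [List.pairwise_cons] at hp
    have ih' := ih hW' hn.2 hp.2
    have hab : a.val < M ∧ M ≤ b.val := hW (a, b) (List.mem_cons_self ..)
    have hX : X a b ∈ P N := X_mem (Fin.lt_def.2 (lt_of_lt_of_le hab.1 hab.2))
    by_cases h : a.val < s ∧ cnt s W < q
    · rw [spl_pos h]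
      show wd (spl s q W).1 * wd ((a, dcol (spl s q W).1 b) :: (spl s q W).2) - wd ((a, b) :: W) ∈ P N
      set U := (spl s q W).1 with hU
      set V := (spl s q W).2 with hV
      have hsub : U.Sublist W := spl_sub W
      have hUrow : ∀ u ∈ U, a ≠ u.1 := by
        intro u hu e
        have h1 := List.mem_map_of_mem (f := Prod.fst) (hsub.subset hu)
        rw [← e] at h1
        exact hn.1 h1
      have hUcol : ∀ u ∈ U, M ≤ u.2.val := fun u hu => (hW' u (hsub.subset hu)).2
      have hUr : ∀ u ∈ U, u.1.val < M := fun u hu => (hW' u (hsub.subset hu)).1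
      have hVP : wd V ∈ P N := by
        refine wd_mem fun v hv => Fin.lt_def.2 ?_
        have h1 := spl_small (s := s) (q := q) W v hv
        rcases spl_col (s := s) (q := q) hW' v hv with h2 | ⟨-, h2⟩
        · omega
        · omega
      -- the main step
      have key : wd U * X a (dcol U b) - X a b * wd U ∈ P N := by
        rcases dcol_cases U b with ⟨e, e'⟩ | ⟨c, U', e1, e2⟩
        · rw [e, comm_wd a b, sub_self]
          · exact zero_mem _
          · intro u hu
            have h1 := hUrow u hu
            have h2 := hUcol u hu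
            have h3 := hUr u hu
            have h4 : b ≠ u.2 := by
              -- the columns of `U` are larger than `b`
              rcases hUU : U with _ | ⟨x, U'⟩
              · rw [hUU] at hu; simp at hu
              · have hx := e' x U' hUU
                have hxW : x ∈ W := hsub.subset (by rw [hUU]; exact List.mem_cons_self ..)
                have hbx : b ≤ x.2 := hp.1 x hxW
                have hxu : x.2 ≤ u.2 := by
                  have hpU : U.Pairwise (fun p q => p.2 ≤ q.2) := hp.2.sublist hsub
                  rw [hUU, List.pairwise_cons] at hpU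
                  rw [hUU] at hu
                  rcases List.mem_cons.1 hu with rfl | hu
                  · exact le_rfl
                  · exact hpU.1 u hu
                intro e2
                exact hx (le_antisymm (e2 ▸ hxu) hbx)
            refine ⟨h1, ?_, ?_, h4⟩
            · intro e2; have := congrArg Fin.val e2; omega
            · intro e2; have := congrArg Fin.val e2; omega
        · have hcU : (c, b) ∈ U := by rw [e1]; exact List.mem_cons_self ..
          have hac : a ≠ c := hUrow _ hcU
          have hcM : c.val < M := hUr _ hcU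
          have hcs : s ≤ c.val := spl_big h.2.le _ hcU
          have hcb : c ≠ b := by
            intro e; have := congrArg Fin.val e; omega
          have hab' : a ≠ b := by
            intro e; have := congrArg Fin.val e; omega
          have hnU : (U.map Prod.fst).Nodup := hn.2.sublist (hsub.map Prod.fst)
          have hcomm : X a c * wd U' = wd U' * X a c := by
            refine comm_wd a c fun u hu => ?_
            have hu' : u ∈ U := by rw [e1]; exact List.mem_cons_of_mem _ hu
            have h2 := hUcol u hu'
            have h3 := hUr u hu'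
            refine ⟨hUrow u hu', ?_, ?_, ?_⟩
            · intro e; have := congrArg Fin.val e; omega
            · intro e
              rw [e1, List.map_cons, List.nodup_cons] at hnU
              have := List.mem_map_of_mem (f := Prod.fst) hu
              rw [← e] at this
              exact hnU.1 this
            · intro e; have := congrArg Fin.val e; omega
          rw [e2, e1, wd_cons]
          show X c b * wd U' * X a c - X a b * (X c b * wd U') ∈ P N
          have t : X a b * X c b = (X c b * X a c - X a c * X a b : A N) := by
            have := X_tri (N := N) hab' hcb.symm hac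
            rw [X_neg c b, X_neg a c] at this
            simp only [mul_neg, neg_mul, neg_neg] at this
            rw [← sub_eq_zero, ← neg_eq_zero, ← this]
            abel
          have e3 : X c b * wd U' * X a c - X a b * (X c b * wd U') = X a c * (X a b * wd U') := by
            rw [← mul_assoc (X a b), t, mul_assoc (X c b), ← hcomm, sub_mul, mul_assoc (X c b),
              mul_assoc (X a c)]
            abel
          rw [e3]
          refine mul_mem (X_mem (Fin.lt_def.2 (by omega))) (mul_mem hX (wd_mem fun u hu => ?_))
          have hu' : u ∈ U := by rw [e1]; exact List.mem_cons_of_mem _ hu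
          have h2 := hUcol u hu'
          have h3 := hUr u hu'
          exact Fin.lt_def.2 (by omega)
      have e4 : wd U * wd ((a, dcol U b) :: V) - wd ((a, b) :: W) =
          (wd U * X a (dcol U b) - X a b * wd U) * wd V + X a b * (wd U * wd V - wd W) := by
        rw [wd_cons, wd_cons, sub_mul, mul_sub]
        simp only [mul_assoc]
        abel
      rw [e4]
      exact add_mem (mul_mem key hVP) (mul_mem hX ih')
    · rw [spl_neg h]
      show wd ((a, b) :: (spl s q W).1) * wd (spl s q W).2 - wd ((a, b) :: W) ∈ P N
      have e4 : wd ((a, b) :: (spl s q W).1) * wd (spl s q W).2 - wd ((a, b) :: W) =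
          X a b * (wd (spl s q W).1 * wd (spl s q W).2 - wd W) := by
        rw [wd_cons, wd_cons, mul_sub]
        simp only [mul_assoc]
      rw [e4]
      exact mul_mem hX ih'

/-! ### reconstruction -/

/-- the letters of the column `b` of the original word -/
def rec (U V : List (Fin N × Fin N)) (b : Fin N) : List (Fin N × Fin N) :=
  ((U.filter fun p => p.2 = b).flatMap fun u =>
    ((V.filter fun p => p.2 = u.1).map fun v => (v.1, b)) ++ [u]) ++ V.filter fun p => p.2 = b

theorem rec_spl {M : ℕ} {W : List (Fin N × Fin N)} (hW : ∀ p ∈ W, IsOut M p)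
    (hn : (W.map Prod.fst).Nodup) (hp : W.Pairwise (fun p q => p.2 ≤ q.2)) {b : Fin N}
    (hb : M ≤ b.val) : (W.filter fun p => p.2 = b) = rec (spl s q W).1 (spl s q W).2 b := by
  induction W with
  | nil => simp [spl, rec]
  | cons p W ih =>
    obtain ⟨a, b0⟩ := p
    have hW' : ∀ x ∈ W, IsOut M x := fun x hx => hW x (List.mem_cons_of_mem _ hx)
    rw [List.map_cons, List.nodup_cons] at hn
    rw [List.pairwise_cons] at hp
    have ih' := ih hW' hn.2 hp.2
    have hab : a.val < M ∧ M ≤ b0.val := hW (a, b0) (List.mem_cons_self ..)
    by_cases h : a.val < s ∧ cnt s W < q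
    · rw [spl_pos h]
      show _ = rec (spl s q W).1 ((a, dcol (spl s q W).1 b0) :: (spl s q W).2) b
      have hsub : (spl s q W).1.Sublist W := spl_sub W
      have hcol := spl_col (s := s) (q := q) hW'
      have hbig := spl_big (s := s) (q := q) (W := W) h.2.le
      generalize hU : (spl s q W).1 = U at ih' hsub hcol hbig ⊢
      generalize hV : (spl s q W).2 = V at ih' hcol ⊢
      have hUcol : ∀ u ∈ U, M ≤ u.2.val := fun u hu => (hW' u (hsub.subset hu)).2
      have hUr : ∀ u ∈ U, u.1.val < M := fun u hu => (hW' u (hsub.subset hu)).1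
      have hnU : (U.map Prod.fst).Nodup := hn.2.sublist (hsub.map Prod.fst)
      have hpU : U.Pairwise (fun p q => p.2 ≤ q.2) := hp.2.sublist hsub
      have hpb : ∀ u ∈ U, b0 ≤ u.2 := fun u hu => hp.1 u (hsub.subset hu)
      rcases dcol_cases U b0 with ⟨e, e'⟩ | ⟨c, U', e1, e2⟩
      · rw [e]
        have h1 : ∀ u ∈ U, (((a, b0) :: V).filter fun p => p.2 = u.1) =
            V.filter fun p => p.2 = u.1 := by
          intro u hu
          rw [List.filter_cons_of_neg]
          intro hh
          have hh' : b0 = u.1 := by simpa using hh
          have := hUr u hu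
          have := congrArg Fin.val hh'
          omega
        have h2 : rec U ((a, b0) :: V) b = ((U.filter fun p => p.2 = b).flatMap fun u =>
            ((V.filter fun p => p.2 = u.1).map fun v => (v.1, b)) ++ [u]) ++
            ((a, b0) :: V).filter fun p => p.2 = b := by
          rw [rec]
          refine congrArg (· ++ _) (List.flatMap_congr fun u hu => ?_)
          rw [h1 u (List.mem_of_mem_filter hu)]
        rw [h2]
        by_cases hbb : b0 = b
        · subst hbb
          have h3 : (U.filter fun p => p.2 = b0) = [] := by
            rw [List.filter_eq_nil_iff]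
            intro u hu hh
            have hh' : u.2 = b0 := by simpa using hh
            rcases hUU : U with _ | ⟨x, U'⟩
            · rw [hUU] at hu; simp at hu
            · have hx := e' x U' hUU
              have hxU : x ∈ U := by rw [hUU]; exact List.mem_cons_self ..
              have hxu : x.2 ≤ u.2 := by
                rw [hUU, List.pairwise_cons] at hpU
                rw [hUU] at hu
                rcases List.mem_cons.1 hu with rfl | hu
                · exact le_rfl
                · exact hpU.1 u hu
              exact hx (le_antisymm (hh' ▸ hxu) (hpb x hxU))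
          rw [rec, h3] at ih'
          rw [List.filter_cons_of_pos (by simp), List.filter_cons_of_pos (by simp), ih', h3]
          simp
        · rw [List.filter_cons_of_neg (by simpa using hbb),
            List.filter_cons_of_neg (by simpa using hbb), ih', rec]
      · rw [e2]
        have hcU : (c, b0) ∈ U := by rw [e1]; exact List.mem_cons_self ..
        have hcM : c.val < M := hUr _ hcU
        have hcb : c ≠ b := by
          intro e; have := congrArg Fin.val e; omega
        have h0 : (((a, c) :: V).filter fun p => p.2 = b) = V.filter fun p => p.2 = b :=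
          List.filter_cons_of_neg (by simpa using hcb)
        have h1 : ∀ u ∈ U', (((a, c) :: V).filter fun p => p.2 = u.1) =
            V.filter fun p => p.2 = u.1 := by
          intro u hu
          rw [List.filter_cons_of_neg]
          intro hh
          have hh' : c = u.1 := by simpa using hh
          rw [e1, List.map_cons, List.nodup_cons] at hnU
          have := List.mem_map_of_mem (f := Prod.fst) hu
          rw [← hh'] at this
          exact hnU.1 this
        have h2 : (((U'.filter fun p => p.2 = b).flatMap fun u =>
            (((((a, c) :: V).filter fun p => p.2 = u.1)).map fun v => (v.1, b)) ++ [u])) =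
            ((U'.filter fun p => p.2 = b).flatMap fun u =>
            ((V.filter fun p => p.2 = u.1).map fun v => (v.1, b)) ++ [u]) := by
          refine List.flatMap_congr fun u hu => ?_
          rw [h1 u (List.mem_of_mem_filter hu)]
        rw [rec, e1] at ih'
        rw [rec, e1, h0]
        by_cases hbb : b0 = b
        · subst hbb
          rw [List.filter_cons_of_pos (by simp)] at ih'
          rw [List.filter_cons_of_pos (by simp), List.filter_cons_of_pos (by simp), ih',
            List.flatMap_cons, List.flatMap_cons, h2, List.filter_cons_of_pos (by simp)]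
          simp
        · rw [List.filter_cons_of_neg (by simpa using hbb)] at ih'
          rw [List.filter_cons_of_neg (by simpa using hbb),
            List.filter_cons_of_neg (by simpa using hbb), ih', h2]
    · rw [spl_neg h]
      show _ = rec ((a, b0) :: (spl s q W).1) (spl s q W).2 b
      by_cases hbb : b0 = b
      · subst hbb
        have h0 : ((spl s q W).2.filter fun p => p.2 = a) = [] := by
          rw [List.filter_eq_nil_iff]
          intro v hv hh
          have hh' : v.2 = a := by simpa using hh
          rcases spl_col (s := s) (q := q) hW' v hv with h1 | ⟨h1, -⟩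
          · rw [hh'] at h1; omega
          · rw [hh'] at h1
            exact hn.1 (((spl_sub W).map Prod.fst).subset h1)
        rw [rec, List.filter_cons_of_pos (by simp), List.filter_cons_of_pos (by simp),
          List.flatMap_cons, h0, ih', rec]
        simp
      · rw [rec, List.filter_cons_of_neg (by simpa using hbb),
          List.filter_cons_of_neg (by simpa using hbb), ih', rec]

/-! ### counting -/

theorem cnt_ge {M r k : ℕ} (hrM : r ≤ M) {W : List (Fin N × Fin N)} (hW : ∀ p ∈ W, IsOut M p)
    (hn : (W.map Prod.fst).Nodup) (hl : W.length = k) : k ≤ cnt (M - r) W + r := by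
  classical
  have h1 : W.length = cnt (M - r) W + (W.filter fun p => !decide (p.1.val < M - r)).length := by
    rw [cnt, ← List.countP_eq_length_filter]
    have key : ∀ (f : Fin N × Fin N → Bool) (l : List (Fin N × Fin N)),
        l.length = l.countP f + l.countP fun p => !f p := by
      intro f l
      induction l with
      | nil => rfl
      | cons x l ih =>
        rw [List.length_cons, ih, List.countP_cons, List.countP_cons]
        cases f x <;> simp <;> omega
    exact key _ W
  have h2 : (W.filter fun p => !decide (p.1.val < M - r)).length ≤ r := by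
    set F := W.filter fun p => !decide (p.1.val < M - r) with hF
    have hnF : (F.map Prod.fst).Nodup := hn.sublist (List.filter_sublist.map Prod.fst)
    have h3 : ((F.map Prod.fst).toFinset.image fun i : Fin N => i.val) ⊆ Finset.Ico (M - r) M := by
      intro x hx
      rw [Finset.mem_image] at hx
      obtain ⟨i, hi, rfl⟩ := hx
      rw [List.mem_toFinset, List.mem_map] at hi
      obtain ⟨p, hp, rfl⟩ := hi
      rw [hF, List.mem_filter] at hp
      have h4 := (hW p hp.1).1
      have h5 : ¬ p.1.val < M - r := by simpa using hp.2
      rw [Finset.mem_Ico]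
      exact ⟨not_lt.1 h5, h4⟩
    have h4 := Finset.card_le_card h3
    rw [Finset.card_image_of_injective _ Fin.val_injective, List.toFinset_card_of_nodup hnF,
      List.length_map, Nat.card_Ico] at h4
    omega
  omega

/-! ### the module -/

theorem tee (pix : PixStmt) : TeeStmt := by
  classical
  intro N M r p q hrp hq hrM hMN
  rw [map_sub, map_mul, pix N M p hMN, pix N (M - r) q (by omega), pix N M (p + q) hMN,
    Finset.sum_mul_sum, ← Finset.sum_product']
  set s := M - r with hs
  -- the injection
  let Φ : List (Fin N × Fin N) → List (Fin N × Fin N) × List (Fin N × Fin N) :=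
    fun W => ((spl s q W).1, srt (spl s q W).2)
  have hVd : ∀ W ∈ LL N M (p + q), ∀ x ∈ (spl s q W).2, x.1.val < s ∧ s ≤ x.2.val := by
    intro W hW x hx
    obtain ⟨-, h1, -, -⟩ := mem_LL.1 hW
    refine ⟨spl_small W x hx, ?_⟩
    rcases spl_col (s := s) (q := q) h1 x hx with h2 | ⟨-, h2⟩
    · omega
    · exact h2
  have hmem : ∀ W ∈ LL N M (p + q), Φ W ∈ LL N M p ×ˢ LL N s q := by
    intro W hW
    obtain ⟨h0, h1, h2, h3⟩ := mem_LL.1 hW
    have hc := cnt_ge hrM h1 h2 h0
    rw [← hs] at hc
    obtain ⟨l1, l2⟩ := spl_len (s := s) (q := q) W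
    have l3 : (spl s q W).2.length = q := by rw [l2]; omega
    rw [Finset.mem_product]
    constructor
    · rw [mem_LL]
      refine ⟨?_, fun x hx => h1 x ((spl_sub W).subset hx), h2.sublist ((spl_sub W).map _),
        h3.sublist (spl_sub W)⟩
      show (spl s q W).1.length = p
      omega
    · rw [mem_LL]
      have hpm := srt_perm (spl s q W).2
      refine ⟨?_, fun x hx => ?_, ?_, srt_pairwise _⟩
      · show (srt (spl s q W).2).length = q
        rw [hpm.length_eq, l3]
      · have := hVd W hW x (mem_srt.1 hx)
        exact ⟨this.1, this.2⟩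
      · exact ((hpm.map Prod.fst).nodup_iff).2 (h2.sublist (spl_rows W))
  have hinj : Set.InjOn Φ (LL N M (p + q) : Set (List (Fin N × Fin N))) := by
    intro W₁ hW₁ W₂ hW₂ he
    obtain ⟨-, a1, a2, a3⟩ := mem_LL.1 hW₁
    obtain ⟨-, b1, b2, b3⟩ := mem_LL.1 hW₂
    have e1 : (spl s q W₁).1 = (spl s q W₂).1 := (Prod.mk.injEq .. ▸ he).1
    have e2 : srt (spl s q W₁).2 = srt (spl s q W₂).2 := (Prod.mk.injEq .. ▸ he).2
    have e3 : ∀ c : Fin N, ((spl s q W₁).2.filter fun p => p.2 = c) =
        (spl s q W₂).2.filter fun p => p.2 = c := by
      intro c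
      rw [← filter_srt, e2, filter_srt]
    have e4 : ∀ b : Fin N, (W₁.filter fun p => p.2 = b) = W₂.filter fun p => p.2 = b := by
      intro b
      by_cases hb : M ≤ b.val
      · rw [rec_spl (s := s) (q := q) a1 a2 a3 hb, rec_spl (s := s) (q := q) b1 b2 b3 hb, rec,
          rec, e1, e3 b]
        refine congrArg (· ++ _) (List.flatMap_congr fun u _ => ?_)
        rw [e3]
      · have : ∀ W : List (Fin N × Fin N), (∀ p ∈ W, IsOut M p) →
            (W.filter fun p => p.2 = b) = [] := by
          intro W hW
          rw [List.filter_eq_nil_iff]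
          intro x hx hh
          have hh' : x.2 = b := by simpa using hh
          exact hb (hh' ▸ (hW x hx).2)
        rw [this _ a1, this _ b1]
    rw [← srt_of_pairwise a3, ← srt_of_pairwise b3]
    exact List.flatMap_congr fun c _ => e4 c
  have hsub : (LL N M (p + q)).image Φ ⊆ LL N M p ×ˢ LL N s q := by
    intro x hx
    obtain ⟨W, hW, rfl⟩ := Finset.mem_image.1 hx
    exact hmem W hW
  rw [← Finset.sum_sdiff hsub, Finset.sum_image hinj, add_sub_assoc, ← Finset.sum_sub_distrib]
  refine add_mem (sum_mem fun x hx => ?_) (sum_mem fun W hW => ?_)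
  · obtain ⟨hx1, -⟩ := Finset.mem_sdiff.1 hx
    rw [Finset.mem_product, mem_LL, mem_LL] at hx1
    refine mul_mem (wd_mem fun u hu => ?_) (wd_mem fun u hu => ?_)
    · have := hx1.1.2.1 u hu
      exact Fin.lt_def.2 (lt_of_lt_of_le this.1 this.2)
    · have := hx1.2.2.1 u hu
      exact Fin.lt_def.2 (lt_of_lt_of_le this.1 this.2)
  · obtain ⟨h0, h1, h2, h3⟩ := mem_LL.1 hW
    show wd (spl s q W).1 * wd (srt (spl s q W).2) - wd W ∈ P N
    rw [wd_srt (h2.sublist (spl_rows W))]
    · exact spl_le (by omega) h1 h2 h3
    · intro x hx y hy e
      have k1 := (hVd W hW x hx).1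
      have k2 := (hVd W hW y hy).2
      rw [e] at k1
      omega

end Pool.Agent.FKP.H2
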