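import Pool.Agent.FKP.StmtsS

/-!
# FKP, module TOP: `topm N s * x_i ∈ Isy N` for `i < s`
-/

set_option autoImplicit false

open Finset

noncomputable section

namespace Pool.Agent.FKP.H2

theorem ek_full (N k : ℕ) : ek N N k = MvPolynomial.esymm (Fin N) ℤ k := by
  rw [ek, MvPolynomial.esymm]
  have : (univ.filter fun i : Fin N => i.val < N) = univ := by
    ext i; simp
  rw [this]

/-- the colon ideal -/
def colI (N s : ℕ) : Ideal (MvPolynomial (Fin N) ℤ) where
  carrier := {f | topm N s * f ∈ Isy N}
  add_mem' := by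
    intro a b ha hb
    show topm N s * (a + b) ∈ Isy N
    rw [mul_add]; exact add_mem ha hb
  zero_mem' := by
    show topm N s * 0 ∈ Isy N
    rw [mul_zero]; exact zero_mem _
  smul_mem' := by
    intro c a ha
    show topm N s * (c * a) ∈ Isy N
    rw [mul_left_comm]; exact Ideal.mul_mem_left _ _ ha

theorem mem_colI {N s : ℕ} {f : MvPolynomial (Fin N) ℤ} :
    f ∈ colI N s ↔ topm N s * f ∈ Isy N := Iff.rfl

/-- general form: if all elementary symmetric functions and the first `s` elements vanish -/
theorem pow_zero_gen {A : Type*} [CommRing A] {N s : ℕ} (y : Fin N → A)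
    (h1 : ∏ l : Fin N, (Polynomial.X + Polynomial.C (y l)) = Polynomial.X ^ N)
    (hs : ∀ i : Fin N, i.val < s → y i = 0) (i : Fin N) (hi : i.val = s) : y i ^ (N - s) = 0 := by
  classical
  have hsN : s < N := hi ▸ i.isLt
  have h2 : ∏ l : Fin N, (Polynomial.X + Polynomial.C (y l)) =
      Polynomial.X ^ s * ∏ l ∈ univ.filter (fun l : Fin N => ¬ l.val < s),
        (Polynomial.X + Polynomial.C (y l)) := by
    rw [← Finset.prod_filter_mul_prod_filter_not univ (fun l : Fin N => l.val < s)]
    refine congrArg (· * _) ?_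
    have e : ∀ l ∈ univ.filter (fun l : Fin N => l.val < s),
        (Polynomial.X + Polynomial.C (y l)) = (Polynomial.X : Polynomial A) := by
      intro l hl
      rw [hs l (Finset.mem_filter.1 hl).2, Polynomial.C_0, add_zero]
    rw [Finset.prod_congr rfl e, Finset.prod_const]
    have : (univ.filter (fun l : Fin N => l.val < s)).card = s := by
      have := Fin.card_filter_val_lt (n := N) (m := s)
      omega
    rw [this]
  have h3 : ∏ l ∈ univ.filter (fun l : Fin N => ¬ l.val < s),
      (Polynomial.X + Polynomial.C (y l)) = Polynomial.X ^ (N - s) := by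
    have h4 : (Polynomial.X : Polynomial A) ^ s *
        ∏ l ∈ univ.filter (fun l : Fin N => ¬ l.val < s),
          (Polynomial.X + Polynomial.C (y l)) =
        Polynomial.X ^ s * Polynomial.X ^ (N - s) := by
      rw [← h2, h1, ← pow_add, Nat.add_sub_cancel' hsN.le]
    exact (Polynomial.monic_X_pow s).isRegular.left h4
  have h5 := congrArg (Polynomial.eval (-y i)) h3
  rw [Polynomial.eval_prod, Polynomial.eval_pow, Polynomial.eval_X] at h5
  have h6 : ∏ l ∈ univ.filter (fun l : Fin N => ¬ l.val < s),
      Polynomial.eval (-y i) (Polynomial.X + Polynomial.C (y l)) = 0 := by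
    refine Finset.prod_eq_zero (i := i) (Finset.mem_filter.2 ⟨Finset.mem_univ _, by omega⟩) ?_
    simp
  rw [h6] at h5
  rcases Nat.even_or_odd (N - s) with h | h
  · rw [h.neg_pow] at h5; exact h5.symm
  · rw [h.neg_pow] at h5; exact neg_eq_zero.1 h5.symm

theorem prod_gen {A : Type*} [CommRing A] {N : ℕ} (φ : MvPolynomial (Fin N) ℤ →+* A)
    (h : ∀ k, 1 ≤ k → φ (MvPolynomial.esymm (Fin N) ℤ k) = 0) :
    ∏ l : Fin N, (Polynomial.X + Polynomial.C (φ (MvPolynomial.X l))) =
      (Polynomial.X ^ N : Polynomial A) := by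
  have h1 := congrArg (Polynomial.mapRingHom φ)
    (MvPolynomial.prod_C_add_X_eq_sum_esymm (R := ℤ) (σ := Fin N))
  rw [map_prod, map_sum, Fintype.card_fin, Finset.sum_range_succ'] at h1
  simp only [map_add, map_mul, map_pow, Polynomial.coe_mapRingHom, Polynomial.map_X,
    Polynomial.map_C] at h1
  rw [h1, MvPolynomial.esymm_zero, map_one, Polynomial.C_1, one_mul, Nat.sub_zero]
  have h0 : ∑ x ∈ range N, Polynomial.C (φ (MvPolynomial.esymm (Fin N) ℤ (x + 1))) *
      (Polynomial.X : Polynomial A) ^ (N - (x + 1)) = 0 := by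
    refine Finset.sum_eq_zero fun x _ => ?_
    rw [h (x + 1) (by omega), Polynomial.C_0, zero_mul]
  rw [h0, zero_add]

/-- in a quotient by an ideal which contains `Isy` and the first `s` variables -/
theorem pow_mem {N s : ℕ} (J : Ideal (MvPolynomial (Fin N) ℤ)) (hJ : Isy N ≤ J)
    (hs : ∀ i : Fin N, i.val < s → MvPolynomial.X i ∈ J) (i : Fin N) (hi : i.val = s) :
    (MvPolynomial.X i : MvPolynomial (Fin N) ℤ) ^ (N - s) ∈ J := by
  have h1 := prod_gen (Ideal.Quotient.mk J) fun k hk => by
    rw [Ideal.Quotient.eq_zero_iff_mem]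
    exact hJ (Ideal.subset_span ⟨k, hk, (ek_full N k).symm⟩)
  have h2 := pow_zero_gen (fun l => Ideal.Quotient.mk J (MvPolynomial.X l)) h1
    (fun l hl => Ideal.Quotient.eq_zero_iff_mem.2 (hs l hl)) i hi
  rw [← Ideal.Quotient.eq_zero_iff_mem, map_pow]
  exact h2

theorem topm_succ {N s : ℕ} (i : Fin N) (hi : i.val = s) :
    topm N (s + 1) = topm N s * MvPolynomial.X i ^ (N - 1 - s) := by
  classical
  rw [topm, topm]
  have : (univ.filter fun j : Fin N => j.val < s + 1) =
      insert i (univ.filter fun j : Fin N => j.val < s) := by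
    ext j
    simp only [Finset.mem_filter, Finset.mem_univ, true_and, Finset.mem_insert, Fin.ext_iff]
    omega
  rw [this, Finset.prod_insert (by simp [hi]), hi, mul_comm]

theorem topm_big {N s : ℕ} (h : N ≤ s) : topm N (s + 1) = topm N s := by
  rw [topm, topm]
  refine Finset.prod_congr ?_ fun _ _ => rfl
  ext j
  have := j.isLt
  simp only [Finset.mem_filter, Finset.mem_univ, true_and]
  omega

theorem top : TopStmt := by
  intro N s
  induction s with
  | zero => intro i hi; omega
  | succ s ih =>
    intro i hi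
    rcases Nat.lt_or_ge s N with hs | hs
    · have e := topm_succ (N := N) (s := s) ⟨s, hs⟩ rfl
      rcases Nat.lt_or_ge i.val s with h | h
      · rw [e, mul_right_comm]
        exact Ideal.mul_mem_right _ _ (ih i h)
      · have hi' : i.val = s := by omega
        have hi2 : (⟨s, hs⟩ : Fin N) = i := Fin.ext hi'.symm
        rw [e, hi2, mul_assoc, ← pow_succ]
        have : N - 1 - s + 1 = N - s := by omega
        rw [this]
        refine mem_colI.1 (pow_mem (colI N s) ?_ (fun j hj => mem_colI.2 (ih j hj)) i hi')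
        intro f hf
        exact mem_colI.2 (Ideal.mul_mem_left _ _ hf)
    · rw [topm_big hs]
      exact ih i (lt_of_lt_of_le i.isLt hs)

end Pool.Agent.FKP.H2
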